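import Pool.Agent.Y766.A4
import Pool.Agent.H510R2.Div

/-!
# The fourth moment of the central values of the Dirichlet L-functions to a prime modulus
-/

set_option autoImplicit false

namespace Pool.Agent.V8H35.NZ

open Finset
open scoped Classical

variable {q : ℕ} [Fact q.Prime]

lemma orthC (u v : ZMod q) : ∑ χ : DirichletCharacter ℂ q, χ u * (starRingEnd ℂ) (χ v) =
    if u = v ∧ u ≠ 0 then ((q.totient : ℕ) : ℂ) else 0 := by
  have : NeZero q := ⟨(Nat.Prime.pos Fact.out).ne'⟩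
  rcases eq_or_ne v 0 with hv | hv
  · subst hv
    rw [if_neg (by rintro ⟨h, h'⟩; exact h' h)]
    refine Finset.sum_eq_zero fun χ _ => ?_
    rw [MulChar.map_nonunit χ not_isUnit_zero, map_zero, mul_zero]
  · have hvu : IsUnit v := isUnit_iff_ne_zero.2 hv
    have h1 : ∀ χ : DirichletCharacter ℂ q, (starRingEnd ℂ) (χ v) = χ v⁻¹ := by
      intro χ
      have h2 : ‖χ v‖ = 1 := by
        obtain ⟨w, hw⟩ := hvu
        rw [← hw]
        exact χ.unit_norm_eq_one w
      rw [← Complex.inv_eq_conj h2]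
      symm
      apply eq_inv_of_mul_eq_one_left
      rw [← map_mul, inv_mul_cancel₀ hv, map_one]
    rw [Finset.sum_congr rfl (fun χ _ => by rw [h1 χ, mul_comm]),
      DirichletCharacter.sum_char_inv_mul_char_eq ℂ hvu u]
    by_cases h : v = u
    · subst h
      rw [if_pos rfl, if_pos ⟨rfl, hv⟩]
    · rw [if_neg h, if_neg (fun h' => h h'.1.symm)]

/-- Parseval's inequality for the characters -/
lemma parsevalM (F : ZMod q → ℂ) :
    ∑ χ : DirichletCharacter ℂ q, ‖∑ u : ZMod q, χ u * F u‖ ^ 2 ≤ q * ∑ u : ZMod q, ‖F u‖ ^ 2 := by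
  have hqp : q.Prime := Fact.out
  have h1 : ((∑ χ : DirichletCharacter ℂ q, ‖∑ u : ZMod q, χ u * F u‖ ^ 2 : ℝ) : ℂ) =
      ∑ u : ZMod q, ∑ v : ZMod q, (F u * (starRingEnd ℂ) (F v)) *
        (if u = v ∧ u ≠ 0 then ((q.totient : ℕ) : ℂ) else 0) := by
    push_cast
    have h2 : ∀ χ : DirichletCharacter ℂ q, ((‖∑ u : ZMod q, χ u * F u‖ : ℝ) : ℂ) ^ 2 =
        ∑ u : ZMod q, ∑ v : ZMod q, (F u * (starRingEnd ℂ) (F v)) *
          (χ u * (starRingEnd ℂ) (χ v)) := by
      intro χ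
      rw [← Complex.mul_conj', map_sum, sum_mul_sum]
      refine sum_congr rfl fun u _ => sum_congr rfl fun v _ => ?_
      rw [map_mul]
      ring
    rw [Finset.sum_congr rfl (fun χ _ => h2 χ), sum_comm]
    refine sum_congr rfl fun u _ => ?_
    rw [sum_comm]
    refine sum_congr rfl fun v _ => ?_
    rw [← Finset.mul_sum, orthC]
  have h3 : ∑ u : ZMod q, ∑ v : ZMod q, (F u * (starRingEnd ℂ) (F v)) *
        (if u = v ∧ u ≠ 0 then ((q.totient : ℕ) : ℂ) else 0) =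
      ((∑ u : ZMod q, (if u ≠ 0 then (q.totient : ℝ) * ‖F u‖ ^ 2 else 0) : ℝ) : ℂ) := by
    push_cast
    refine sum_congr rfl fun u _ => ?_
    rw [Finset.sum_eq_single u]
    · by_cases hu : u ≠ 0
      · rw [if_pos ⟨rfl, hu⟩, if_pos hu, Complex.mul_conj']
        push_cast
        ring
      · rw [if_neg (fun h => hu h.2), if_neg hu]
        simp
    · intro v _ hv
      rw [if_neg (fun h => hv h.1.symm), mul_zero]
    · intro h
      exact absurd (mem_univ u) h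
  rw [h3] at h1
  rw [Complex.ofReal_inj.1 h1, Finset.mul_sum]
  refine Finset.sum_le_sum fun u _ => ?_
  split_ifs
  · apply mul_le_mul_of_nonneg_right _ (by positivity)
    exact_mod_cast Nat.totient_le q
  · positivity

/-- the mean square of a character sum -/
lemma char_sq {ι : Type*} (s : Finset ι) (f : ι → ZMod q) (c : ι → ℂ) {B : ℝ} (hB : 0 ≤ B)
    (hc : ∀ i ∈ s, ‖c i‖ ≤ B) {M : ℝ}
    (hM : ∀ u : ZMod q, ((s.filter (fun i => f i = u)).card : ℝ) ≤ M) :
    ∑ χ : DirichletCharacter ℂ q, ‖∑ i ∈ s, χ (f i) * c i‖ ^ 2 ≤ q * (B ^ 2 * (s.card * M)) := by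
  set F : ZMod q → ℂ := fun u => ∑ i ∈ s.filter (fun i => f i = u), c i with hF
  have h1 : ∀ χ : DirichletCharacter ℂ q, ∑ i ∈ s, χ (f i) * c i = ∑ u : ZMod q, χ u * F u := by
    intro χ
    rw [← Finset.sum_fiberwise (s := s) (g := f)]
    refine Finset.sum_congr rfl fun u _ => ?_
    rw [hF, Finset.mul_sum]
    refine Finset.sum_congr rfl fun i hi => ?_
    rw [(mem_filter.1 hi).2]
  rw [Finset.sum_congr rfl (fun χ _ => by rw [h1 χ])]
  refine (parsevalM F).trans (mul_le_mul_of_nonneg_left ?_ (Nat.cast_nonneg _))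
  have h2 : ∀ u, ‖F u‖ ≤ B * ((s.filter (fun i => f i = u)).card : ℝ) := by
    intro u
    rw [hF]
    refine (norm_sum_le _ _).trans ?_
    refine (Finset.sum_le_card_nsmul _ _ B fun i hi => hc i (mem_filter.1 hi).1).trans ?_
    rw [nsmul_eq_mul, mul_comm]
  have h3 : ∀ u ∈ (univ : Finset (ZMod q)), ‖F u‖ ^ 2 ≤
      B ^ 2 * M * ((s.filter (fun i => f i = u)).card : ℝ) := by
    intro u _
    have h4 := h2 u
    have h5 := hM u
    set n : ℝ := ((s.filter (fun i => f i = u)).card : ℝ) with hn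
    have hn0 : 0 ≤ n := Nat.cast_nonneg _
    calc ‖F u‖ ^ 2 ≤ (B * n) ^ 2 := pow_le_pow_left₀ (norm_nonneg _) h4 2
      _ = B ^ 2 * n * n := by ring
      _ ≤ B ^ 2 * M * n := by gcongr
  refine (Finset.sum_le_sum h3).trans ?_
  rw [← Finset.mul_sum]
  have h6 : ∑ u : ZMod q, ((s.filter (fun i => f i = u)).card : ℝ) = s.card := by
    rw [← Nat.cast_sum]
    congr 1
    exact (Finset.card_eq_sum_card_fiberwise (fun i _ => mem_univ (f i))).symm
  rw [h6]
  apply le_of_eq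
  ring

lemma res_card (N q : ℕ) (hq : 0 < q) (u : ZMod q) :
    ((Icc 1 N).filter (fun v : ℕ => ((v : ℕ) : ZMod q) = u)).card ≤ N / q + 1 := by
  have h : Set.InjOn (fun v : ℕ => v / q) ((Icc 1 N).filter (fun v : ℕ => ((v : ℕ) : ZMod q) = u)) := by
    intro v hv w hw hvw
    rw [mem_coe, mem_filter] at hv hw
    have h1 : ((v : ℕ) : ZMod q) = ((w : ℕ) : ZMod q) := hv.2.trans hw.2.symm
    rw [ZMod.natCast_eq_natCast_iff] at h1
    have h2 : v % q = w % q := h1
    have h3 := Nat.div_add_mod v q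
    have h4 := Nat.div_add_mod w q
    have h5 : v / q = w / q := hvw
    rw [← h3, ← h4, h5, h2]
  rw [← Finset.card_image_of_injOn h]
  refine (Finset.card_le_card (t := range (N / q + 1)) ?_).trans (by rw [card_range])
  intro x hx
  rw [mem_image] at hx
  obtain ⟨v, hv, rfl⟩ := hx
  rw [mem_filter, mem_Icc] at hv
  rw [mem_range]
  have := Nat.div_le_div_right (c := q) hv.1.2
  omega

lemma fib (M q : ℕ) (hq : 0 < q) (D : ℕ) (hD : ∀ v, 1 ≤ v → v ≤ M ^ 2 → v.divisors.card ≤ D)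
    (u : ZMod q) : ((Icc 1 M ×ˢ Icc 1 M).filter
      (fun p : ℕ × ℕ => ((p.1 * p.2 : ℕ) : ZMod q) = u)).card ≤ D * (M ^ 2 / q + 1) := by
  set S := (Icc 1 M ×ˢ Icc 1 M).filter (fun p : ℕ × ℕ => ((p.1 * p.2 : ℕ) : ZMod q) = u) with hS
  have h1 : ∀ a ∈ S.image (fun p : ℕ × ℕ => p.1 * p.2), (S.filter (fun p => p.1 * p.2 = a)).card ≤ D := by
    intro a ha
    rw [mem_image] at ha
    obtain ⟨p, hp, rfl⟩ := ha
    rw [hS, mem_filter, mem_product, mem_Icc, mem_Icc] at hp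
    obtain ⟨⟨⟨p1, p2⟩, p3, p4⟩, -⟩ := hp
    have h2 : 1 ≤ p.1 * p.2 := Nat.one_le_iff_ne_zero.2 (by positivity)
    have h3 : p.1 * p.2 ≤ M ^ 2 := by
      calc p.1 * p.2 ≤ M * M := Nat.mul_le_mul p2 p4
        _ = M ^ 2 := by ring
    refine le_trans ?_ (hD _ h2 h3)
    apply Finset.card_le_card_of_injOn (fun r : ℕ × ℕ => r.1)
    · intro r hr
      rw [mem_coe, mem_filter] at hr
      rw [mem_coe, Nat.mem_divisors]
      exact ⟨⟨r.2, hr.2.symm⟩, by omega⟩
    · intro r hr s hs hrs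
      rw [mem_coe, mem_filter, hS, mem_filter, mem_product, mem_Icc, mem_Icc] at hr hs
      have e1 : r.1 = s.1 := hrs
      have e2 : r.1 * r.2 = s.1 * s.2 := hr.2.trans hs.2.symm
      rw [← e1] at e2
      have e3 : r.2 = s.2 := Nat.eq_of_mul_eq_mul_left (by have := hr.1.1.1.1; omega) e2
      exact Prod.ext e1 e3
  refine (Finset.card_le_mul_card_image S D h1).trans (Nat.mul_le_mul_left _ ?_)
  refine le_trans ?_ (res_card (M ^ 2) q hq u)
  apply Finset.card_le_card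
  intro a ha
  rw [mem_image] at ha
  obtain ⟨p, hp, rfl⟩ := ha
  rw [hS, mem_filter, mem_product, mem_Icc, mem_Icc] at hp
  obtain ⟨⟨⟨p1, p2⟩, p3, p4⟩, h⟩ := hp
  rw [mem_filter, mem_Icc]
  refine ⟨⟨Nat.one_le_iff_ne_zero.2 (by positivity), ?_⟩, h⟩
  calc p.1 * p.2 ≤ M * M := Nat.mul_le_mul p2 p4
    _ = M ^ 2 := by ring

end Pool.Agent.V8H35.NZ
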