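import Pool.Agent.V8H35.NZ.F4

/-!
# The fourth moment of the central values of the Dirichlet L-functions to a prime modulus, II
-/

set_option autoImplicit false

namespace Pool.Agent.V8H35.NZ

open Finset
open scoped Classical
open Pool.Agent.Y766 (SS afe1 Good)

variable {q : ℕ} [Fact q.Prime]

/-- the fourth moment of a sum of length `4N` -/
lemma SS4 (g : ℝ → ℂ) (N B : ℝ) (hN : 0 < N) (hB : 0 ≤ B) (hg : ∀ x, ‖g x‖ ≤ B) (D : ℕ)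
    (hD : ∀ v, 1 ≤ v → v ≤ ⌊4 * N⌋₊ ^ 2 → v.divisors.card ≤ D) :
    ∑ χ : DirichletCharacter ℂ q, ‖SS χ g N‖ ^ 4 ≤
      B ^ 4 * (D * (16 * N ^ 2 * (16 * N ^ 2 + q))) := by
  have hqp : q.Prime := Fact.out
  have hq0 : (0 : ℝ) < q := by exact_mod_cast hqp.pos
  set M := ⌊4 * N⌋₊ with hM
  have hMr : (M : ℝ) ^ 2 ≤ 16 * N ^ 2 := by
    have h1 : (M : ℝ) ≤ 4 * N := Nat.floor_le (by positivity)
    calc (M : ℝ) ^ 2 ≤ (4 * N) ^ 2 := pow_le_pow_left₀ (Nat.cast_nonneg _) h1 2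
      _ = _ := by ring
  set P : Finset (ℕ × ℕ) := Icc 1 M ×ˢ Icc 1 M with hP
  have h1 : ∀ χ : DirichletCharacter ℂ q, ‖SS χ g N‖ ^ 4 =
      ‖∑ p ∈ P, χ ((p.1 * p.2 : ℕ) : ZMod q) * (g ((p.1 : ℝ) / N) * g ((p.2 : ℝ) / N))‖ ^ 2 := by
    intro χ
    have h2 : ∑ p ∈ P, χ ((p.1 * p.2 : ℕ) : ZMod q) * (g ((p.1 : ℝ) / N) * g ((p.2 : ℝ) / N)) =
        SS χ g N ^ 2 := by
      rw [sq]
      unfold SS
      rw [sum_mul_sum, ← sum_product', hP]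
      refine Finset.sum_congr rfl fun p _ => ?_
      rw [Nat.cast_mul, map_mul]
      ring
    rw [h2, norm_pow, ← pow_mul]
  rw [Finset.sum_congr rfl (fun χ _ => h1 χ)]
  have hfib : ∀ u : ZMod q, ((P.filter (fun p : ℕ × ℕ => ((p.1 * p.2 : ℕ) : ZMod q) = u)).card : ℝ) ≤
      (D : ℝ) * ((M : ℝ) ^ 2 / q + 1) := by
    intro u
    have h2 := fib M q hqp.pos D hD u
    have h3 : ((M ^ 2 / q : ℕ) : ℝ) ≤ (M : ℝ) ^ 2 / q := by
      have := @Nat.cast_div_le ℝ _ _ _ (M ^ 2) q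
      push_cast at this
      exact this
    calc ((P.filter (fun p : ℕ × ℕ => ((p.1 * p.2 : ℕ) : ZMod q) = u)).card : ℝ) ≤
          ((D * (M ^ 2 / q + 1) : ℕ) : ℝ) := by exact_mod_cast h2
      _ = (D : ℝ) * (((M ^ 2 / q : ℕ) : ℝ) + 1) := by push_cast; ring
      _ ≤ _ := mul_le_mul_of_nonneg_left (by linarith) (Nat.cast_nonneg _)
  have h2 := char_sq (q := q) P (fun p : ℕ × ℕ => ((p.1 * p.2 : ℕ) : ZMod q))
    (fun p => g ((p.1 : ℝ) / N) * g ((p.2 : ℝ) / N)) (B := B ^ 2) (by positivity)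
    (fun p _ => by
      rw [norm_mul, sq]
      exact mul_le_mul (hg _) (hg _) (norm_nonneg _) hB) hfib
  refine h2.trans ?_
  have h3 : (P.card : ℝ) = (M : ℝ) ^ 2 := by
    rw [hP, card_product, Nat.card_Icc, Nat.add_sub_cancel]
    push_cast
    ring
  rw [h3]
  have h4 : (q : ℝ) * ((B ^ 2) ^ 2 * ((M : ℝ) ^ 2 * ((D : ℝ) * ((M : ℝ) ^ 2 / q + 1)))) =
      B ^ 4 * (D * ((M : ℝ) ^ 2 * ((M : ℝ) ^ 2 + q))) := by
    field_simp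
  rw [h4]
  gcongr

lemma prim_of_ne {χ : DirichletCharacter ℂ q} (h : χ ≠ 1) : χ.IsPrimitive := by
  have hqp : q.Prime := Fact.out
  have : NeZero q := ⟨hqp.pos.ne'⟩
  unfold DirichletCharacter.IsPrimitive
  rcases (Nat.dvd_prime hqp).1 χ.conductor_dvd_level with h1 | h1
  · exact absurd (DirichletCharacter.eq_one_iff_conductor_eq_one.2 h1) h
  · exact h1

lemma card_chars : (Fintype.card (DirichletCharacter ℂ q) : ℝ) ≤ q := by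
  have hqp : q.Prime := Fact.out
  have : NeZero q := ⟨hqp.pos.ne'⟩
  have h := DirichletCharacter.card_eq_totient_of_hasEnoughRootsOfUnity ℂ q
  rw [Nat.card_eq_fintype_card] at h
  rw [h]
  exact_mod_cast Nat.totient_le q

/-- **The fourth moment of the central values** -/
theorem fourth {ε : ℝ} (hε : 0 < ε) : ∃ C : ℝ, 1 ≤ C ∧ ∀ (q : ℕ) [Fact q.Prime],
    ∑ χ ∈ (univ : Finset (DirichletCharacter ℂ q)).erase 1,
      ‖DirichletCharacter.LFunction χ (1 / 2)‖ ^ 4 ≤ C * (q : ℝ) ^ (1 + ε) := by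
  obtain ⟨η, hη⟩ : ∃ η : ℝ, η = min (ε / 9) 1 := ⟨_, rfl⟩
  have hη0 : 0 < η := by rw [hη]; positivity
  have hη1 : η ≤ 1 := by rw [hη]; exact min_le_right _ _
  have hηε : 9 * η ≤ ε := by
    have := min_le_left (ε / 9) 1
    rw [hη]; linarith
  obtain ⟨C0, A, hC0, hafe⟩ := afe1 hη0 hη1
  obtain ⟨C1, hC1, hdiv⟩ := Pool.Agent.H510R2.divisor_bound η hη0
  obtain ⟨K, hK⟩ : ∃ K : ℝ, K = 8 * (C0 ^ 4 + C0 ^ 4 * (272 * C0 ^ 4 * (16 * C1))) := ⟨_, rfl⟩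
  have hK0 : 0 ≤ K := by rw [hK]; positivity
  refine ⟨K + 1, by linarith, ?_⟩
  intro q _
  have hqp : q.Prime := Fact.out
  have : NeZero q := ⟨hqp.pos.ne'⟩
  have hq0 : (0 : ℝ) < q := by exact_mod_cast hqp.pos
  have hq1 : (1 : ℝ) ≤ q := by exact_mod_cast hqp.one_lt.le
  obtain ⟨ι, hι, N, g, hcard, hN, hg, hL⟩ := hafe 0 q hqp.one_lt
  have e0 : (1 + |(0 : ℝ)|) ^ A = 1 := by simp
  rw [e0, mul_one] at hg hL
  have e1 : (1 / 2 + ((0 : ℝ) : ℂ) * Complex.I : ℂ) = 1 / 2 := by simp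
  rw [e1] at hL
  set D : ℕ := ⌊C1 * (16 * (q : ℝ) ^ (3 : ℝ)) ^ η⌋₊ with hDd
  have hDr : (D : ℝ) ≤ 16 * C1 * (q : ℝ) ^ (3 * η) := by
    calc (D : ℝ) ≤ C1 * (16 * (q : ℝ) ^ (3 : ℝ)) ^ η := Nat.floor_le (by positivity)
      _ = C1 * ((16 : ℝ) ^ η * (q : ℝ) ^ (3 * η)) := by
          rw [Real.mul_rpow (by norm_num) (by positivity), ← Real.rpow_mul hq0.le]
      _ ≤ C1 * (16 * (q : ℝ) ^ (3 * η)) := by
          have : (16 : ℝ) ^ η ≤ 16 := by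
            calc (16 : ℝ) ^ η ≤ (16 : ℝ) ^ (1 : ℝ) :=
                  Real.rpow_le_rpow_of_exponent_le (by norm_num) hη1
              _ = 16 := Real.rpow_one _
          gcongr
      _ = _ := by ring
  have hx4 : ∀ i, ∑ χ : DirichletCharacter ℂ q, (N i ^ (-(1 / 2) : ℝ) * ‖SS χ (g i) (N i)‖) ^ 4 ≤
      272 * C0 ^ 4 * (16 * C1) * (q : ℝ) ^ (1 + 5 * η) := by
    intro i
    obtain ⟨hN1, hN2⟩ := hN i
    have hN0 : 0 < N i := by linarith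
    have hN4 : (N i ^ (-(1 / 2) : ℝ)) ^ 4 = (N i ^ 2)⁻¹ := by
      rw [← Real.rpow_natCast (N i ^ (-(1 / 2) : ℝ)) 4, ← Real.rpow_mul hN0.le,
        ← Real.rpow_natCast (N i) 2, ← Real.rpow_neg hN0.le]
      norm_num
    have hN3 : N i ^ 2 ≤ (q : ℝ) ^ (1 + 2 * η) := by
      calc N i ^ 2 ≤ ((q : ℝ) ^ (1 / 2 + η)) ^ 2 := pow_le_pow_left₀ hN0.le hN2 2
        _ = (q : ℝ) ^ (1 + 2 * η) := by
            rw [← Real.rpow_natCast ((q : ℝ) ^ (1 / 2 + η)) 2, ← Real.rpow_mul hq0.le]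
            congr 1
            push_cast
            ring
    have hD : ∀ v, 1 ≤ v → v ≤ ⌊4 * N i⌋₊ ^ 2 → v.divisors.card ≤ D := by
      intro v hv1 hv2
      apply Nat.le_floor
      refine (hdiv v hv1).trans ?_
      apply mul_le_mul_of_nonneg_left _ hC1.le
      apply Real.rpow_le_rpow (Nat.cast_nonneg _) _ hη0.le
      have h1 : (⌊4 * N i⌋₊ : ℝ) ≤ 4 * N i := Nat.floor_le (by positivity)
      calc (v : ℝ) ≤ ((⌊4 * N i⌋₊ ^ 2 : ℕ) : ℝ) := by exact_mod_cast hv2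
        _ = (⌊4 * N i⌋₊ : ℝ) ^ 2 := by push_cast; rfl
        _ ≤ (4 * N i) ^ 2 := pow_le_pow_left₀ (Nat.cast_nonneg _) h1 2
        _ = 16 * N i ^ 2 := by ring
        _ ≤ 16 * (q : ℝ) ^ (1 + 2 * η) := by linarith
        _ ≤ 16 * (q : ℝ) ^ (3 : ℝ) := by
            apply mul_le_mul_of_nonneg_left _ (by norm_num)
            exact Real.rpow_le_rpow_of_exponent_le hq1 (by linarith)
    have h2 := SS4 (q := q) (g i) (N i) C0 hN0 hC0.le (hg i).b0 D hD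
    have h3 : ∑ χ : DirichletCharacter ℂ q, (N i ^ (-(1 / 2) : ℝ) * ‖SS χ (g i) (N i)‖) ^ 4 =
        (N i ^ 2)⁻¹ * ∑ χ : DirichletCharacter ℂ q, ‖SS χ (g i) (N i)‖ ^ 4 := by
      rw [Finset.mul_sum]
      refine Finset.sum_congr rfl fun χ _ => ?_
      rw [mul_pow, hN4]
    rw [h3]
    have hq12 : (q : ℝ) ≤ (q : ℝ) ^ (1 + 2 * η) := by
      calc (q : ℝ) = (q : ℝ) ^ (1 : ℝ) := (Real.rpow_one _).symm
        _ ≤ _ := Real.rpow_le_rpow_of_exponent_le hq1 (by linarith)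
    calc (N i ^ 2)⁻¹ * ∑ χ : DirichletCharacter ℂ q, ‖SS χ (g i) (N i)‖ ^ 4 ≤
          (N i ^ 2)⁻¹ * (C0 ^ 4 * (D * (16 * N i ^ 2 * (16 * N i ^ 2 + q)))) :=
          mul_le_mul_of_nonneg_left h2 (by positivity)
      _ = 16 * C0 ^ 4 * D * (16 * N i ^ 2 + q) := by field_simp
      _ ≤ 16 * C0 ^ 4 * (16 * C1 * (q : ℝ) ^ (3 * η)) * (17 * (q : ℝ) ^ (1 + 2 * η)) := by
          have : 16 * N i ^ 2 + q ≤ 17 * (q : ℝ) ^ (1 + 2 * η) := by linarith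
          gcongr
      _ = 272 * C0 ^ 4 * (16 * C1) * ((q : ℝ) ^ (3 * η) * (q : ℝ) ^ (1 + 2 * η)) := by ring
      _ = _ := by
          rw [← Real.rpow_add hq0]
          congr 2
          ring
  have hx : ∀ χ ∈ (univ : Finset (DirichletCharacter ℂ q)).erase 1,
      ‖DirichletCharacter.LFunction χ (1 / 2)‖ ^ 4 ≤ 8 * (C0 ^ 4 + (Fintype.card ι : ℝ) ^ 3 *
        ∑ i, (N i ^ (-(1 / 2) : ℝ) * ‖SS χ (g i) (N i)‖) ^ 4) := by
    intro χ hχ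
    have h1 := hL χ (prim_of_ne (mem_erase.1 hχ).1)
    have hxi : ∀ i ∈ (univ : Finset ι), 0 ≤ N i ^ (-(1 / 2) : ℝ) * ‖SS χ (g i) (N i)‖ := by
      intro i _
      have : 0 < N i := by linarith [(hN i).1]
      positivity
    have h2 := pow_sum_le_card_mul_sum_pow hxi 3
    rw [card_univ] at h2
    have h3 : 0 ≤ ∑ i, N i ^ (-(1 / 2) : ℝ) * ‖SS χ (g i) (N i)‖ := Finset.sum_nonneg hxi
    calc ‖DirichletCharacter.LFunction χ (1 / 2)‖ ^ 4 ≤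
          (C0 + ∑ i, N i ^ (-(1 / 2) : ℝ) * ‖SS χ (g i) (N i)‖) ^ 4 :=
          pow_le_pow_left₀ (norm_nonneg _) h1 4
      _ ≤ 2 ^ (4 - 1) * (C0 ^ 4 + (∑ i, N i ^ (-(1 / 2) : ℝ) * ‖SS χ (g i) (N i)‖) ^ 4) :=
          add_pow_le hC0.le h3 4
      _ ≤ 2 ^ (4 - 1) * (C0 ^ 4 + (Fintype.card ι : ℝ) ^ 3 *
        ∑ i, (N i ^ (-(1 / 2) : ℝ) * ‖SS χ (g i) (N i)‖) ^ 4) := by gcongr
      _ = _ := by norm_num
  refine (Finset.sum_le_sum hx).trans ?_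
  have h1 : ∑ χ ∈ (univ : Finset (DirichletCharacter ℂ q)).erase 1, 8 * (C0 ^ 4 +
      (Fintype.card ι : ℝ) ^ 3 * ∑ i, (N i ^ (-(1 / 2) : ℝ) * ‖SS χ (g i) (N i)‖) ^ 4) ≤
      ∑ χ : DirichletCharacter ℂ q, 8 * (C0 ^ 4 +
      (Fintype.card ι : ℝ) ^ 3 * ∑ i, (N i ^ (-(1 / 2) : ℝ) * ‖SS χ (g i) (N i)‖) ^ 4) := by
    apply Finset.sum_le_sum_of_subset_of_nonneg (Finset.erase_subset _ _)
    intro χ _ _
    have : 0 ≤ ∑ i, (N i ^ (-(1 / 2) : ℝ) * ‖SS χ (g i) (N i)‖) ^ 4 :=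
      Finset.sum_nonneg fun i _ => by positivity
    positivity
  refine h1.trans ?_
  rw [← Finset.mul_sum, Finset.sum_add_distrib, Finset.sum_const, ← Finset.mul_sum, sum_comm,
    card_univ, nsmul_eq_mul]
  have h2 : ∑ i, ∑ χ : DirichletCharacter ℂ q, (N i ^ (-(1 / 2) : ℝ) * ‖SS χ (g i) (N i)‖) ^ 4 ≤
      (Fintype.card ι : ℝ) * (272 * C0 ^ 4 * (16 * C1) * (q : ℝ) ^ (1 + 5 * η)) := by
    refine (Finset.sum_le_card_nsmul _ _ _ fun i _ => hx4 i).trans ?_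
    rw [nsmul_eq_mul, card_univ]
  have h3 : (Fintype.card ι : ℝ) ^ 4 ≤ C0 ^ 4 * (q : ℝ) ^ (4 * η) := by
    calc (Fintype.card ι : ℝ) ^ 4 ≤ (C0 * (q : ℝ) ^ η) ^ 4 :=
          pow_le_pow_left₀ (Nat.cast_nonneg _) hcard 4
      _ = C0 ^ 4 * (q : ℝ) ^ (4 * η) := by
          rw [mul_pow, ← Real.rpow_natCast ((q : ℝ) ^ η) 4, ← Real.rpow_mul hq0.le]
          congr 2
          push_cast
          ring
  have h4 : (q : ℝ) ≤ (q : ℝ) ^ (1 + 9 * η) := by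
    calc (q : ℝ) = (q : ℝ) ^ (1 : ℝ) := (Real.rpow_one _).symm
      _ ≤ _ := Real.rpow_le_rpow_of_exponent_le hq1 (by linarith)
  calc 8 * ((Fintype.card (DirichletCharacter ℂ q) : ℝ) * C0 ^ 4 + (Fintype.card ι : ℝ) ^ 3 *
        ∑ i, ∑ χ : DirichletCharacter ℂ q, (N i ^ (-(1 / 2) : ℝ) * ‖SS χ (g i) (N i)‖) ^ 4) ≤
      8 * ((q : ℝ) * C0 ^ 4 + (Fintype.card ι : ℝ) ^ 3 * ((Fintype.card ι : ℝ) *
        (272 * C0 ^ 4 * (16 * C1) * (q : ℝ) ^ (1 + 5 * η)))) := by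
        have := card_chars (q := q)
        gcongr
    _ = 8 * ((q : ℝ) * C0 ^ 4 + (Fintype.card ι : ℝ) ^ 4 *
        (272 * C0 ^ 4 * (16 * C1) * (q : ℝ) ^ (1 + 5 * η))) := by ring
    _ ≤ 8 * ((q : ℝ) ^ (1 + 9 * η) * C0 ^ 4 + (C0 ^ 4 * (q : ℝ) ^ (4 * η)) *
        (272 * C0 ^ 4 * (16 * C1) * (q : ℝ) ^ (1 + 5 * η))) := by gcongr
    _ = 8 * ((q : ℝ) ^ (1 + 9 * η) * C0 ^ 4 + C0 ^ 4 * (272 * C0 ^ 4 * (16 * C1)) *
        ((q : ℝ) ^ (4 * η) * (q : ℝ) ^ (1 + 5 * η))) := by ring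
    _ = K * (q : ℝ) ^ (1 + 9 * η) := by
        have e : (q : ℝ) ^ (4 * η) * (q : ℝ) ^ (1 + 5 * η) = (q : ℝ) ^ (1 + 9 * η) := by
          rw [← Real.rpow_add hq0]
          congr 1
          ring
        rw [e, hK]
        ring
    _ ≤ (K + 1) * (q : ℝ) ^ (1 + ε) := by
        have : (q : ℝ) ^ (1 + 9 * η) ≤ (q : ℝ) ^ (1 + ε) :=
          Real.rpow_le_rpow_of_exponent_le hq1 (by linarith)
        have h5 : K ≤ K + 1 := by linarith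
        gcongr

end Pool.Agent.V8H35.NZ
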