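import Pool.Agent.V8H35.NZ.F5
import Pool.Agent.V8H35.HB.E11

/-!
# Non-vanishing of central values in thin subgroups of the group of the characters
-/

set_option autoImplicit false

namespace Pool.Agent.V8H35.NZ

open Finset Filter Topology
open scoped Classical
open Pool.Agent.R311.RES (ann card_mul orth L_half hzv)
open Pool.Agent.V8H35.HB

variable {q : ℕ} [Fact q.Prime]

/-- the first moment over a subgroup -/
lemma first (H : Subgroup (DirichletCharacter ℂ q)) :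
    ∑ χ : H, DirichletCharacter.LFunction (χ : DirichletCharacter ℂ q) (1 / 2) =
      (((Fintype.card H : ℝ) * ∑ k : ann H, zq q ((k : (ZMod q)ˣ) : ZMod q).val : ℝ) : ℂ) := by
  rw [Finset.sum_congr rfl (fun (χ : H) _ => L_half (χ : DirichletCharacter ℂ q)), sum_comm]
  have h1 : ∀ a : (ZMod q)ˣ, ∑ χ : H, (χ : DirichletCharacter ℂ q) (a : ZMod q) * hzv q a =
      if a ∈ ann H then (Fintype.card H : ℂ) * ((zq q (a : ZMod q).val : ℝ) : ℂ) else 0 := by
    intro a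
    rw [← Finset.sum_mul, orth, hzv_eq]
    split_ifs <;> simp
  rw [Finset.sum_congr rfl (fun a _ => h1 a), ← Finset.sum_filter]
  push_cast
  rw [Finset.mul_sum]
  symm
  refine Finset.sum_bij' (fun (k : ann H) _ => (k : (ZMod q)ˣ))
    (fun (a : (ZMod q)ˣ) ha => (⟨a, (mem_filter.1 ha).2⟩ : ann H)) ?_ ?_ ?_ ?_ ?_
  · intro k _
    exact mem_filter.2 ⟨mem_univ _, k.2⟩
  · intro a ha
    exact mem_univ _
  · intro k _
    rfl
  · intro a _
    rfl
  · intro k _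
    rfl

/-- the first moment is bounded from below -/
lemma first_lower {β : ℝ} (hβ : 5 / 11 < β) (hβ1 : β ≤ 3 / 5) : ∃ q₀ : ℕ, ∀ (q : ℕ) [Fact q.Prime],
    q₀ ≤ q → ∀ H : Subgroup (DirichletCharacter ℂ q), (q : ℝ) ^ β ≤ (Fintype.card H : ℝ) →
      3 / 8 * (Fintype.card H : ℝ) ≤
        ∑ χ : H, ‖DirichletCharacter.LFunction (χ : DirichletCharacter ℂ q) (1 / 2)‖ := by
  obtain ⟨ν, hν⟩ : ∃ ν : ℝ, ν = (11 * β - 5) / 96 := ⟨_, rfl⟩
  have hν0 : 0 < ν := by rw [hν]; linarith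
  have hν1 : ν ≤ 1 / 10 := by rw [hν]; linarith
  obtain ⟨δ, hδ⟩ : ∃ δ : ℝ, δ = (11 * β - 5) / 16 - 3 * ν := ⟨_, rfl⟩
  have hδ0 : 0 < δ := by rw [hδ, hν]; linarith
  have t1 : Tendsto (fun q : ℕ => Real.log (q : ℝ)) atTop atTop :=
    Real.tendsto_log_atTop.comp tendsto_natCast_atTop_atTop
  have t2 : Tendsto (fun q : ℕ => (q : ℝ) ^ δ) atTop atTop :=
    (tendsto_rpow_atTop hδ0).comp tendsto_natCast_atTop_atTop
  obtain ⟨q₀, hq₀⟩ := eventually_atTop.1 ((t1.eventually (ev_FG (c := 1) 20000 hβ hν0 hν1)).and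
    (t2.eventually_ge_atTop 8))
  refine ⟨q₀, fun q _ hqq H hH => ?_⟩
  have hqp : q.Prime := Fact.out
  have : NeZero q := ⟨hqp.pos.ne'⟩
  obtain ⟨FG, hq8⟩ := hq₀ q hqq
  have hq0 : (0 : ℝ) < q := by exact_mod_cast hqp.pos
  have hq1 : (1 : ℝ) ≤ q := by exact_mod_cast hqp.one_lt.le
  have hqx : (q : ℝ) = Real.exp (Real.log q) := (Real.exp_log hq0).symm
  have hK : (Fintype.card (ann H) : ℝ) ≤ Real.exp ((1 - β) * Real.log q) * (1 / 1) := by
    have h1 := card_mul H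
    have h2 : (q : ℝ) ^ β * (Fintype.card (ann H) : ℝ) ≤ q := by
      calc (q : ℝ) ^ β * (Fintype.card (ann H) : ℝ) ≤
          (Fintype.card H : ℝ) * (Fintype.card (ann H) : ℝ) :=
            mul_le_mul_of_nonneg_right hH (Nat.cast_nonneg _)
        _ = q - 1 := h1
        _ ≤ q := by linarith
    have h3 : (q : ℝ) ^ β = Real.exp (β * Real.log q) := by
      rw [Real.rpow_def_of_pos hq0, mul_comm]
    have h4 : (0 : ℝ) < (q : ℝ) ^ β := by positivity
    have h5 : (Fintype.card (ann H) : ℝ) * (q : ℝ) ^ β ≤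
        Real.exp ((1 - β) * Real.log q) * (q : ℝ) ^ β := by
      calc (Fintype.card (ann H) : ℝ) * (q : ℝ) ^ β = (q : ℝ) ^ β * (Fintype.card (ann H) : ℝ) := by
            ring
        _ ≤ q := h2
        _ = _ := by
            rw [h3, ← Real.exp_add]
            nth_rewrite 1 [hqx]
            congr 1
            ring
    have h6 := le_of_mul_le_mul_right h5 h4
    linarith
  obtain ⟨e1, e2, e3, e4⟩ := err_le FG rfl one_pos hβ hβ1 hν0 hν1 (Nat.cast_nonneg _) hK rfl rfl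
  have hS := SS_sup (ann H) 1 FG rfl one_pos hβ hβ1 hK
  have hT := T_lower (ann H) hS e1 e2 1
  rw [← hδ] at e4
  have herr : ((Fintype.card (ann H) : ℝ) / q *
      ((11 + ‖riemannZeta (1 / 2)‖) * Real.sqrt ⌊Real.exp (((5 * β + 5) / 8 - ν) * Real.log q)⌋₊) +
        8 * (⌊Real.exp (((5 * β + 5) / 8 - ν) * Real.log q)⌋₊ : ℝ) ^ (-(1 / 2 : ℝ)) *
          Real.exp ((5 / 8 - 3 / 8 * β + ν) * Real.log q) * (1 + Real.log q)) ≤ 1 / 8 := by
    have h1 : (0 : ℝ) < (q : ℝ) ^ δ := by positivity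
    rw [← le_div_iff₀ h1] at e4
    refine e4.trans ?_
    exact one_div_le_one_div_of_le (by norm_num) hq8
  set Y : ℕ := ⌊Real.exp (((5 * β + 5) / 8 - ν) * Real.log q)⌋₊ with hY
  have hw : (1 : ℝ) / 2 ≤ ∑ k : ann H, wY Y (((1 : (ZMod q)ˣ) * (k : (ZMod q)ˣ) : (ZMod q)ˣ) : ZMod q).val := by
    have h0 : ∀ k ∈ (univ : Finset (ann H)),
        0 ≤ wY Y (((1 : (ZMod q)ˣ) * (k : (ZMod q)ˣ) : (ZMod q)ˣ) : ZMod q).val := by
      intro k _
      unfold wY
      split_ifs <;> positivity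
    refine le_trans ?_ (Finset.single_le_sum h0 (mem_univ (1 : ann H)))
    have h1 : (((1 : (ZMod q)ˣ) * ((1 : ann H) : (ZMod q)ˣ) : (ZMod q)ˣ) : ZMod q).val = 1 := by
      rw [one_mul, OneMemClass.coe_one, Units.val_one]
      have : Fact (1 < q) := ⟨hqp.one_lt⟩
      exact ZMod.val_one q
    rw [h1]
    unfold wY
    rw [if_pos]
    · simp
    · have h2 : (256 : ℝ) ≤ Y := by
        refine le_trans ?_ e3
        have : 1 ≤ (q : ℝ) ^ (1 / 2 : ℝ) := Real.one_le_rpow hq1 (by norm_num)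
        linarith
      have h3 : 256 ≤ Y := by exact_mod_cast h2
      omega
  have hsum : (3 : ℝ) / 8 ≤ ∑ k : ann H, zq q ((k : (ZMod q)ˣ) : ZMod q).val := by
    have h1 : ∑ k : ann H, zq q (((1 : (ZMod q)ˣ) * (k : (ZMod q)ˣ) : (ZMod q)ˣ) : ZMod q).val =
        ∑ k : ann H, zq q ((k : (ZMod q)ˣ) : ZMod q).val := by
      refine Finset.sum_congr rfl fun k _ => ?_
      rw [one_mul]
    rw [h1] at hT
    linarith
  have h1 := first H
  calc 3 / 8 * (Fintype.card H : ℝ) ≤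
        (Fintype.card H : ℝ) * ∑ k : ann H, zq q ((k : (ZMod q)ˣ) : ZMod q).val := by
        rw [mul_comm]
        exact mul_le_mul_of_nonneg_left hsum (Nat.cast_nonneg _)
    _ ≤ ‖(((Fintype.card H : ℝ) * ∑ k : ann H, zq q ((k : (ZMod q)ˣ) : ZMod q).val : ℝ) : ℂ)‖ := by
        rw [Complex.norm_real]
        exact le_abs_self _
    _ = ‖∑ χ : H, DirichletCharacter.LFunction (χ : DirichletCharacter ℂ q) (1 / 2)‖ := by rw [h1]
    _ ≤ _ := norm_sum_le _ _

/-- the value at the principal character is bounded -/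
lemma triv_le : ‖DirichletCharacter.LFunction (1 : DirichletCharacter ℂ q) (1 / 2)‖ ≤
    ‖riemannZeta (1 / 2)‖ := by
  have hqp : q.Prime := Fact.out
  have : NeZero q := ⟨hqp.pos.ne'⟩
  have hq1 : (1 : ℝ) < q := by exact_mod_cast hqp.one_lt
  have h3 := DirichletCharacter.LFunctionTrivChar_eq_mul_riemannZeta (N := q) (s := 1 / 2) (by norm_num)
  rw [DirichletCharacter.LFunctionTrivChar] at h3
  rw [hqp.primeFactors, Finset.prod_singleton] at h3
  rw [h3, norm_mul]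
  refine mul_le_of_le_one_left (norm_nonneg _) ?_
  have e1 : (q : ℂ) ^ (-(1 / 2) : ℂ) = (((q : ℝ) ^ (-(1 / 2 : ℝ)) : ℝ) : ℂ) := by
    rw [Complex.ofReal_cpow (by positivity)]
    norm_num
  rw [e1, ← Complex.ofReal_one, ← Complex.ofReal_sub, Complex.norm_real, Real.norm_eq_abs, abs_le]
  have h5 : (q : ℝ) ^ (-(1 / 2 : ℝ)) ≤ 1 :=
    Real.rpow_le_one_of_one_le_of_nonpos hq1.le (by norm_num)
  have h6 : 0 ≤ (q : ℝ) ^ (-(1 / 2 : ℝ)) := by positivity
  constructor <;> linarith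

/-- **Many central values in a thin subgroup are not small** -/
theorem main {β ε : ℝ} (hβ : 5 / 11 < β) (hε : 0 < ε) : ∃ q₀ : ℕ, ∀ (q : ℕ) [Fact q.Prime],
    q₀ ≤ q → ∀ H : Subgroup (DirichletCharacter ℂ q), (q : ℝ) ^ β ≤ (Fintype.card H : ℝ) →
      (q : ℝ) ^ (-(1 / 3 : ℝ) - ε) * (Fintype.card H : ℝ) ^ (4 / 3 : ℝ) ≤
        ((univ.filter (fun χ : DirichletCharacter ℂ q => χ ∈ H ∧ χ ≠ 1 ∧
          1 / 4 ≤ ‖DirichletCharacter.LFunction χ (1 / 2)‖)).card : ℝ) := by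
  obtain ⟨β₁, hβ₁⟩ : ∃ β₁ : ℝ, β₁ = min β (3 / 5) := ⟨_, rfl⟩
  have hb1 : 5 / 11 < β₁ := by rw [hβ₁]; exact lt_min hβ (by norm_num)
  have hb2 : β₁ ≤ 3 / 5 := by rw [hβ₁]; exact min_le_right _ _
  have hb3 : β₁ ≤ β := by rw [hβ₁]; exact min_le_left _ _
  obtain ⟨q₁, h1⟩ := first_lower hb1 hb2
  obtain ⟨C, hC1, h4⟩ := fourth hε
  have t1 : Tendsto (fun q : ℕ => (q : ℝ) ^ β₁) atTop atTop :=
    (tendsto_rpow_atTop (by linarith)).comp tendsto_natCast_atTop_atTop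
  have t2 : Tendsto (fun q : ℕ => (q : ℝ) ^ ε) atTop atTop :=
    (tendsto_rpow_atTop hε).comp tendsto_natCast_atTop_atTop
  obtain ⟨q₂, h2⟩ := eventually_atTop.1 ((t1.eventually_ge_atTop (16 * ‖riemannZeta (1 / 2)‖)).and
    (t2.eventually_ge_atTop (16 ^ 4 * C)))
  refine ⟨max q₁ q₂, fun q _ hqq H hH => ?_⟩
  have hqp : q.Prime := Fact.out
  have : NeZero q := ⟨hqp.pos.ne'⟩
  obtain ⟨h2a, h2b⟩ := h2 q (le_trans (le_max_right _ _) hqq)
  have hq0 : (0 : ℝ) < q := by exact_mod_cast hqp.pos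
  have hq1 : (1 : ℝ) ≤ q := by exact_mod_cast hqp.one_lt.le
  have hH1 : (q : ℝ) ^ β₁ ≤ (Fintype.card H : ℝ) :=
    (Real.rpow_le_rpow_of_exponent_le hq1 hb3).trans hH
  have h3 := h1 q (le_trans (le_max_left _ _) hqq) H hH1
  have h5 := h4 q
  set n : ℝ := (Fintype.card H : ℝ) with hn
  have hn0 : 0 < n := lt_of_lt_of_le (by positivity) hH1
  set S : Finset (DirichletCharacter ℂ q) := univ.filter (fun χ : DirichletCharacter ℂ q => χ ∈ H ∧ χ ≠ 1 ∧
          1 / 4 ≤ ‖DirichletCharacter.LFunction χ (1 / 2)‖) with hS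
  -- the sum over `H`
  have e1 : ∑ χ : H, ‖DirichletCharacter.LFunction (χ : DirichletCharacter ℂ q) (1 / 2)‖ =
      ∑ χ ∈ (univ : Finset (DirichletCharacter ℂ q)).filter (fun χ => χ ∈ H),
        ‖DirichletCharacter.LFunction χ (1 / 2)‖ := by
    refine Finset.sum_bij' (fun (k : H) _ => (k : DirichletCharacter ℂ q))
      (fun (a : DirichletCharacter ℂ q) ha => (⟨a, (mem_filter.1 ha).2⟩ : H)) ?_ ?_ ?_ ?_ ?_
    · intro k _
      exact mem_filter.2 ⟨mem_univ _, k.2⟩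
    · intro a ha
      exact mem_univ _
    · intro k _
      rfl
    · intro a _
      rfl
    · intro k _
      rfl
  have hHc : (((univ : Finset (DirichletCharacter ℂ q)).filter (fun χ => χ ∈ H)).card : ℝ) = n := by
    rw [hn, ← Fintype.card_subtype]
  have e2 : ∑ χ ∈ (univ : Finset (DirichletCharacter ℂ q)).filter (fun χ => χ ∈ H),
        ‖DirichletCharacter.LFunction χ (1 / 2)‖ ≤ n / 4 + ‖riemannZeta (1 / 2)‖ +
          ∑ χ ∈ S, ‖DirichletCharacter.LFunction χ (1 / 2)‖ := by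
    have h6 : ∀ χ ∈ (univ : Finset (DirichletCharacter ℂ q)).filter (fun χ => χ ∈ H),
        ‖DirichletCharacter.LFunction χ (1 / 2)‖ ≤ 1 / 4 +
          (if χ = 1 then ‖riemannZeta (1 / 2)‖ else 0) +
          (if χ ∈ S then ‖DirichletCharacter.LFunction χ (1 / 2)‖ else 0) := by
      intro χ hχ
      by_cases h7 : χ = 1
      · subst h7
        rw [if_pos rfl]
        have := triv_le (q := q)
        have h8 : 0 ≤ (if (1 : DirichletCharacter ℂ q) ∈ S then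
          ‖DirichletCharacter.LFunction (1 : DirichletCharacter ℂ q) (1 / 2)‖ else 0) := by
          split_ifs <;> positivity
        linarith
      · rw [if_neg h7]
        by_cases h8 : χ ∈ S
        · rw [if_pos h8]
          linarith
        · rw [if_neg h8]
          rw [hS, mem_filter] at h8
          push Not at h8
          have := h8 (mem_univ _) (mem_filter.1 hχ).2 h7
          linarith
    refine (Finset.sum_le_sum h6).trans ?_
    rw [Finset.sum_add_distrib, Finset.sum_add_distrib, Finset.sum_const, nsmul_eq_mul, hHc,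
      ← Finset.sum_filter, ← Finset.sum_filter]
    have h7 : ∑ χ ∈ ((univ : Finset (DirichletCharacter ℂ q)).filter (fun χ => χ ∈ H)).filter
        (fun χ => χ = 1), ‖riemannZeta (1 / 2)‖ ≤ ‖riemannZeta (1 / 2)‖ := by
      rw [Finset.sum_const, nsmul_eq_mul]
      apply mul_le_of_le_one_left (norm_nonneg _)
      have : (((univ : Finset (DirichletCharacter ℂ q)).filter (fun χ => χ ∈ H)).filter
        (fun χ => χ = 1)).card ≤ 1 := by
        apply Finset.card_le_one.2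
        intro a ha b hb
        rw [(mem_filter.1 ha).2, (mem_filter.1 hb).2]
      exact_mod_cast this
    have h8 : ∑ χ ∈ ((univ : Finset (DirichletCharacter ℂ q)).filter (fun χ => χ ∈ H)).filter
        (fun χ => χ ∈ S), ‖DirichletCharacter.LFunction χ (1 / 2)‖ ≤
        ∑ χ ∈ S, ‖DirichletCharacter.LFunction χ (1 / 2)‖ := by
      apply Finset.sum_le_sum_of_subset_of_nonneg
      · intro χ hχ
        exact (mem_filter.1 hχ).2
      · intro χ _ _
        positivity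
    linarith
  have e3 : n / 16 ≤ ∑ χ ∈ S, ‖DirichletCharacter.LFunction χ (1 / 2)‖ := by
    rw [e1] at h3
    have h6 : 16 * ‖riemannZeta (1 / 2)‖ ≤ n := h2a.trans hH1
    linarith
  -- Hölder
  have e4 : (∑ χ ∈ S, ‖DirichletCharacter.LFunction χ (1 / 2)‖) ^ 4 ≤
      (S.card : ℝ) ^ 3 * (C * (q : ℝ) ^ (1 + ε)) := by
    have h6 := pow_sum_le_card_mul_sum_pow (s := S)
      (f := fun χ => ‖DirichletCharacter.LFunction χ (1 / 2)‖) (fun χ _ => norm_nonneg _) 3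
    refine h6.trans (mul_le_mul_of_nonneg_left ?_ (by positivity))
    refine le_trans ?_ h5
    apply Finset.sum_le_sum_of_subset_of_nonneg
    · intro χ hχ
      rw [hS, mem_filter] at hχ
      exact mem_erase.2 ⟨hχ.2.2.1, mem_univ _⟩
    · intro χ _ _
      positivity
  have e5 : (n / 16) ^ 4 ≤ (S.card : ℝ) ^ 3 * (C * (q : ℝ) ^ (1 + ε)) :=
    (pow_le_pow_left₀ (by positivity) e3 4).trans e4
  -- the final inequality
  have e6 : n ^ 4 ≤ (S.card : ℝ) ^ 3 * (q : ℝ) ^ (1 + 2 * ε) := by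
    have h6 : (q : ℝ) ^ (1 + 2 * ε) = (q : ℝ) ^ ε * (q : ℝ) ^ (1 + ε) := by
      rw [← Real.rpow_add hq0]
      congr 1
      ring
    calc n ^ 4 = 16 ^ 4 * (n / 16) ^ 4 := by ring
      _ ≤ 16 ^ 4 * ((S.card : ℝ) ^ 3 * (C * (q : ℝ) ^ (1 + ε))) :=
          mul_le_mul_of_nonneg_left e5 (by norm_num)
      _ = (S.card : ℝ) ^ 3 * ((16 ^ 4 * C) * (q : ℝ) ^ (1 + ε)) := by ring
      _ ≤ (S.card : ℝ) ^ 3 * ((q : ℝ) ^ ε * (q : ℝ) ^ (1 + ε)) := by gcongr
      _ = _ := by rw [h6]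
  have e7 : ((q : ℝ) ^ (-(1 / 3 : ℝ) - ε) * n ^ (4 / 3 : ℝ)) ^ 3 ≤ (S.card : ℝ) ^ 3 := by
    have h6 : ((q : ℝ) ^ (-(1 / 3 : ℝ) - ε) * n ^ (4 / 3 : ℝ)) ^ 3 =
        (q : ℝ) ^ (-(1 : ℝ) - 3 * ε) * n ^ 4 := by
      rw [mul_pow, ← Real.rpow_natCast ((q : ℝ) ^ (-(1 / 3 : ℝ) - ε)) 3, ← Real.rpow_mul hq0.le,
        ← Real.rpow_natCast (n ^ (4 / 3 : ℝ)) 3, ← Real.rpow_mul hn0.le, ← Real.rpow_natCast n 4]
      congr 2
      · push_cast; ring
      · push_cast; norm_num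
    rw [h6]
    calc (q : ℝ) ^ (-(1 : ℝ) - 3 * ε) * n ^ 4 ≤
          (q : ℝ) ^ (-(1 : ℝ) - 3 * ε) * ((S.card : ℝ) ^ 3 * (q : ℝ) ^ (1 + 2 * ε)) :=
          mul_le_mul_of_nonneg_left e6 (by positivity)
      _ = (S.card : ℝ) ^ 3 * ((q : ℝ) ^ (-(1 : ℝ) - 3 * ε) * (q : ℝ) ^ (1 + 2 * ε)) := by ring
      _ ≤ (S.card : ℝ) ^ 3 * 1 := by
          apply mul_le_mul_of_nonneg_left _ (by positivity)
          rw [← Real.rpow_add hq0]
          exact Real.rpow_le_one_of_one_le_of_nonpos hq1 (by linarith)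
      _ = _ := mul_one _
  exact le_of_pow_le_pow_left₀ (by norm_num) (Nat.cast_nonneg _) e7

end Pool.Agent.V8H35.NZ
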